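import Mathlib
import Pool.Agent.Results.MP_9c1228_co.Disproof

/-!
# Pick-type formula for self-affine tilings in all dimensions: surface area and the final estimate
-/

set_option autoImplicit false

open MeasureTheory Filter Topology

namespace Pool.Agent.Y472.SA

open Pool.Agent.Results.MP_9c1228_co.Disproof

/-- The surface area of the boundary: the `(d - 1)`-dimensional Hausdorff measure. -/
noncomputable def surface {d : ℕ} (X : Set (E d)) : ℝ := (μH[(d : ℝ) - 1] (frontier X)).toReal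

/-- the error in the Pick-type formula -/
noncomputable def err {d : ℕ} (𝒯 : Set (Set (E d))) (Δ : ℝ) (X : Set (E d)) : ℝ :=
  (count 𝒯 X : ℝ) - ((volume X).toReal / Δ + 1 / 2 * (count 𝒯 (frontier X) : ℝ))

variable {n : ℕ}

/-- the cube -/
def cube (n : ℕ) : Set (E (n + 1)) := tile (fun _ => 0) (fun _ => 1)

theorem cube_eq : cube n = rbox (fun _ => 0) (fun _ => 2) := by
  unfold cube tile
  congr 1
  · funext i; simp
  · funext i; simp

/-- a face of the cube, as the image of a cube of smaller dimension -/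
noncomputable def fc (i : Fin (n + 1)) (c : ℝ) (q : Fin n → ℝ) : E (n + 1) :=
  WithLp.toLp 2 (Fin.insertNth i c q)

theorem fc_lip (i : Fin (n + 1)) (c : ℝ) : ∃ K : NNReal, LipschitzWith K (fc (n := n) i c) := by
  have h1 : LipschitzWith 1 (fun q : Fin n → ℝ => (Fin.insertNth i c q : Fin (n + 1) → ℝ)) := by
    refine LipschitzWith.of_dist_le_mul fun q q' => ?_
    rw [NNReal.coe_one, one_mul]
    refine (dist_pi_le_iff dist_nonneg).2 fun j => ?_
    refine Fin.succAboveCases i ?_ (fun k => ?_) j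
    · simp
    · simp only [Fin.insertNth_apply_succAbove]
      exact dist_le_pi_dist q q' k
  have h2 := PiLp.lipschitzWith_toLp 2 (fun _ : Fin (n + 1) => ℝ)
  exact ⟨_, h2.comp h1⟩

theorem frontier_sub : frontier (cube n) ⊆
    ⋃ i : Fin (n + 1), (fc i 0 '' Set.Icc 0 (fun _ => 2) ∪ fc i 2 '' Set.Icc 0 (fun _ => 2)) := by
  rw [cube_eq, (closed_rbox _ _).frontier_eq, interior_rbox]
  rintro p ⟨h1, h2⟩
  have h3 : ∃ i, p i = 0 ∨ p i = 2 := by
    by_contra hcon
    push Not at hcon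
    exact h2 fun i => ⟨lt_of_le_of_ne (h1 i).1 (hcon i).1.symm, lt_of_le_of_ne (h1 i).2 (hcon i).2⟩
  obtain ⟨i, hi⟩ := h3
  rw [Set.mem_iUnion]
  refine ⟨i, ?_⟩
  have hq : (fun j => p (i.succAbove j)) ∈ Set.Icc (0 : Fin n → ℝ) (fun _ => 2) :=
    ⟨fun j => (h1 _).1, fun j => (h1 _).2⟩
  have hp : fc i (p i) (fun j => p (i.succAbove j)) = p := by
    ext j
    change (Fin.insertNth i (p i) (fun j => p (i.succAbove j)) : Fin (n + 1) → ℝ) j = p j
    refine Fin.succAboveCases i ?_ (fun k => ?_) j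
    · simp
    · simp
  rcases hi with hi | hi
  · rw [hi] at hp
    exact Or.inl ⟨_, hq, hp⟩
  · rw [hi] at hp
    exact Or.inr ⟨_, hq, hp⟩

theorem face_fin (i : Fin (n + 1)) (c : ℝ) :
    μH[(n : ℝ)] (fc i c '' Set.Icc (0 : Fin n → ℝ) (fun _ => 2)) < ⊤ := by
  obtain ⟨K, hK⟩ := fc_lip (n := n) i c
  refine lt_of_le_of_lt (hK.hausdorffMeasure_image_le (Nat.cast_nonneg n) _) ?_
  have h1 : (μH[(n : ℝ)] : Measure (Fin n → ℝ)) = volume := by
    have := hausdorffMeasure_pi_real (ι := Fin n)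
    rwa [Fintype.card_fin] at this
  rw [h1]
  refine ENNReal.mul_lt_top ?_ isCompact_Icc.measure_lt_top
  exact ENNReal.rpow_lt_top_of_nonneg (Nat.cast_nonneg n) ENNReal.coe_ne_top

theorem frontier_fin : μH[(n : ℝ)] (frontier (cube n)) < ⊤ := by
  refine lt_of_le_of_lt (measure_mono frontier_sub) ?_
  refine lt_of_le_of_lt (measure_iUnion_fintype_le _ _) ?_
  refine ENNReal.sum_lt_top.2 fun i _ => ?_
  refine lt_of_le_of_lt (measure_union_le _ _) ?_
  exact ENNReal.add_lt_top.2 ⟨face_fin i 0, face_fin i 2⟩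

theorem frontier_pos : 0 < μH[(n : ℝ)] (frontier (cube n)) := by
  let π : E (n + 1) → (Fin n → ℝ) := fun p j => p j.succ
  have hπ : LipschitzWith 1 π := by
    refine LipschitzWith.of_dist_le_mul fun p q => ?_
    rw [NNReal.coe_one, one_mul]
    refine (dist_pi_le_iff dist_nonneg).2 fun j => ?_
    exact (PiLp.lipschitzWith_ofLp 2 (fun _ : Fin (n + 1) => ℝ)).dist_le_mul p q |> fun h => by
      rw [NNReal.coe_one, one_mul] at h
      exact (dist_le_pi_dist p.ofLp q.ofLp j.succ).trans h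
  have h1 : (μH[(n : ℝ)] : Measure (Fin n → ℝ)) = volume := by
    have := hausdorffMeasure_pi_real (ι := Fin n)
    rwa [Fintype.card_fin] at this
  have h2 := hπ.hausdorffMeasure_image_le (Nat.cast_nonneg n) (frontier (cube n))
  rw [ENNReal.coe_one, ENNReal.one_rpow, one_mul, h1] at h2
  refine lt_of_lt_of_le ?_ h2
  have h3 : Set.Icc (0 : Fin n → ℝ) (fun _ => 2) ⊆ π '' frontier (cube n) := by
    intro q hq
    refine ⟨WithLp.toLp 2 (Fin.cons 0 q), ?_, ?_⟩
    · rw [cube_eq, (closed_rbox _ _).frontier_eq, interior_rbox]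
      refine ⟨fun i => ?_, fun h => ?_⟩
      · refine Fin.cases ?_ (fun j => ?_) i
        · simp
        · change (0 : ℝ) ≤ (Fin.cons 0 q : Fin (n + 1) → ℝ) j.succ ∧
            (Fin.cons 0 q : Fin (n + 1) → ℝ) j.succ ≤ 2
          rw [Fin.cons_succ]
          exact ⟨hq.1 j, hq.2 j⟩
      · have := (h 0).1
        change (0 : ℝ) < (Fin.cons 0 q : Fin (n + 1) → ℝ) 0 at this
        rw [Fin.cons_zero] at this
        exact lt_irrefl _ this
    · funext j
      change (Fin.cons 0 q : Fin (n + 1) → ℝ) j.succ = q j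
      rw [Fin.cons_succ]
  refine lt_of_lt_of_le ?_ (measure_mono h3)
  have h4 : (0 : Fin n → ℝ) = fun _ => 0 := rfl
  rw [Real.volume_Icc_pi]
  simp only [Pi.zero_apply, sub_zero, Finset.prod_const]
  exact ENNReal.pow_pos (by norm_num) _

theorem surface_pos : 0 < surface (cube n) := by
  unfold surface
  have e : ((n + 1 : ℕ) : ℝ) - 1 = n := by push_cast; ring
  rw [e, ENNReal.toReal_pos_iff]
  exact ⟨frontier_pos, frontier_fin⟩

open Pointwise in
theorem surface_image (k : ℕ) :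
    surface ((act (phi (n + 1)))^[k] '' cube n) = (5 ^ k) ^ n * surface (cube n) := by
  have h1 : (act (phi (n + 1)))^[k] '' cube n = ((5 : ℝ) ^ k) • cube n := by
    rw [← Set.image_smul]
    exact Set.image_congr fun p _ => phi_pow_apply k p
  have h5 : (5 : ℝ) ^ k ≠ 0 := by positivity
  have h2 : frontier (((5 : ℝ) ^ k) • cube n) = ((5 : ℝ) ^ k) • frontier (cube n) := by
    have := (Homeomorph.smulOfNeZero ((5 : ℝ) ^ k) h5 (α := E (n + 1))).image_frontier (cube n)
    rw [← Set.image_smul, ← Set.image_smul]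
    exact this.symm
  unfold surface
  have e : ((n + 1 : ℕ) : ℝ) - 1 = n := by push_cast; ring
  rw [e, h1, h2, Measure.hausdorffMeasure_smul₀ (Nat.cast_nonneg n) h5, ENNReal.smul_def, smul_eq_mul,
    ENNReal.toReal_mul]
  congr 1
  simp

theorem key_ineq (a b : ℝ) (ha : 0 ≤ a) (hb : 0 ≤ b) (hab : 3 ≤ 2 * a + b) (n : ℕ) :
    b / 3 * (2 * a / 3) ^ n ≤
      1 / 2 * (((2 * a + b) / 3 + 1) ^ (n + 1) + ((2 * a + b) / 3 - 1) ^ (n + 1)) -
        (2 * a / 3) ^ (n + 1) := by
  have hx : (2 * a + b) / 3 + 1 ∈ Set.Ici (0 : ℝ) := by rw [Set.mem_Ici]; positivity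
  have hy : (2 * a + b) / 3 - 1 ∈ Set.Ici (0 : ℝ) := by rw [Set.mem_Ici]; linarith
  have hc : ConvexOn ℝ (Set.Ici 0) (fun x : ℝ => x ^ (n + 1)) := convexOn_pow (n + 1)
  have h1 := hc.2 hx hy (by norm_num : (0 : ℝ) ≤ 1 / 2) (by norm_num : (0 : ℝ) ≤ 1 / 2)
    (by norm_num)
  simp only [smul_eq_mul] at h1
  have e1 : 1 / 2 * ((2 * a + b) / 3 + 1) + 1 / 2 * ((2 * a + b) / 3 - 1) = (2 * a + b) / 3 := by
    ring
  rw [e1] at h1
  have h2 : (2 * a / 3) ^ n ≤ ((2 * a + b) / 3) ^ n :=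
    pow_le_pow_left₀ (by positivity) (by linarith) n
  have h3 : (2 * a / 3) ^ (n + 1) + b / 3 * (2 * a / 3) ^ n ≤ ((2 * a + b) / 3) ^ (n + 1) := by
    have e2 : (2 * a / 3) ^ (n + 1) + b / 3 * (2 * a / 3) ^ n = (2 * a / 3) ^ n * ((2 * a + b) / 3) := by
      ring
    rw [e2, pow_succ]
    exact mul_le_mul_of_nonneg_right h2 (by positivity)
  linarith

theorem gap01 : ∀ i : Fin (n + 1), Gap ((fun _ => 0 : Fin (n + 1) → ℤ) i)
    ((fun _ => 1 : Fin (n + 1) → ℤ) i) := fun _ =>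
  ⟨not_hole_zero, by simpa using not_hole1 0, Or.inl (by norm_num)⟩

theorem err_ge (k : ℕ) : (2 : ℝ) ^ k / 3 * (2 * 5 ^ k / 3) ^ n ≤
    err (tiles (n + 1)) (3 ^ (n + 1)) ((act (phi (n + 1)))^[k] '' cube n) := by
  obtain ⟨N, h1, h2, h3⟩ := tile_counts (gap01 (n := n)) k
  have hV : (volume ((act (phi (n + 1)))^[k] '' cube n)).toReal = (2 * 5 ^ k) ^ (n + 1) := by
    rw [volume_image_phi_pow, cube, volume_tile gap01]
    simp
    rw [mul_pow]
    ring
  have hcl : IsClosed ((act (phi (n + 1)))^[k] '' cube n) := by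
    rw [cube, image_phi_pow_tile]; exact closed_rbox _ _
  have hfin : (vertices (tiles (n + 1)) ∩ (act (phi (n + 1)))^[k] '' cube n).Finite := by
    rw [cube, image_phi_pow_tile]; exact finite_inter_tile _ _
  have hfr : count (tiles (n + 1)) (frontier ((act (phi (n + 1)))^[k] '' cube n)) +
      (vertices (tiles (n + 1)) ∩ interior ((act (phi (n + 1)))^[k] '' cube n)).ncard =
      count (tiles (n + 1)) ((act (phi (n + 1)))^[k] '' cube n) := by
    rw [count, count, hcl.frontier_eq]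
    have hdis : Disjoint (vertices (tiles (n + 1)) ∩ (((act (phi (n + 1)))^[k] '' cube n) \
        interior ((act (phi (n + 1)))^[k] '' cube n)))
        (vertices (tiles (n + 1)) ∩ interior ((act (phi (n + 1)))^[k] '' cube n)) := by
      rw [Set.disjoint_left]
      rintro p ⟨_, h4⟩ ⟨_, h5⟩
      exact h4.2 h5
    rw [← Set.ncard_union_eq hdis
      (hfin.subset (Set.inter_subset_inter_right _ Set.sdiff_subset))
      (hfin.subset (Set.inter_subset_inter_right _ interior_subset)),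
      ← Set.inter_union_distrib_left, Set.sdiff_union_of_subset interior_subset]
  have hfr' : (count (tiles (n + 1)) (frontier ((act (phi (n + 1)))^[k] '' cube n)) : ℝ) =
      (count (tiles (n + 1)) ((act (phi (n + 1)))^[k] '' cube n) : ℝ) -
      ((vertices (tiles (n + 1)) ∩ interior ((act (phi (n + 1)))^[k] '' cube n)).ncard : ℝ) := by
    rw [← hfr]; push_cast; ring
  have hn : ∀ i, (N i : ℝ) = (2 * 5 ^ k + 2 ^ k) / 3 := by
    intro i; rw [h1 i]; push_cast; ring
  have h2' : (count (tiles (n + 1)) ((act (phi (n + 1)))^[k] '' cube n) : ℝ) =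
      ((2 * 5 ^ k + 2 ^ k) / 3 + 1 : ℝ) ^ (n + 1) := by
    rw [cube, h2]
    simp [hn]
  have h3' : ((vertices (tiles (n + 1)) ∩ interior ((act (phi (n + 1)))^[k] '' cube n)).ncard : ℝ) =
      ((2 * 5 ^ k + 2 ^ k) / 3 - 1 : ℝ) ^ (n + 1) := by
    rw [cube, h3]
    simp [hn]
  unfold err
  rw [hfr', hV, h2', h3']
  have h5 : (1 : ℝ) ≤ 5 ^ k := one_le_pow₀ (by norm_num)
  have h6 : (1 : ℝ) ≤ 2 ^ k := one_le_pow₀ (by norm_num)
  have h := key_ineq (5 ^ k) (2 ^ k) (by positivity) (by positivity) (by linarith) n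
  have e : (2 * 5 ^ k : ℝ) ^ (n + 1) / 3 ^ (n + 1) = (2 * 5 ^ k / 3) ^ (n + 1) := (div_pow _ _ _).symm
  rw [e]
  linarith

theorem err_lim : Tendsto (fun k : ℕ => err (tiles (n + 1)) (3 ^ (n + 1))
    ((act (phi (n + 1)))^[k] '' cube n) / surface ((act (phi (n + 1)))^[k] '' cube n))
      atTop atTop := by
  have hs := surface_pos (n := n)
  have hlow : ∀ k : ℕ, (2 : ℝ) ^ k * ((2 / 3) ^ n / (3 * surface (cube n))) ≤
      err (tiles (n + 1)) (3 ^ (n + 1)) ((act (phi (n + 1)))^[k] '' cube n) /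
        surface ((act (phi (n + 1)))^[k] '' cube n) := by
    intro k
    have h5 : (0 : ℝ) < 5 ^ k := by positivity
    rw [surface_image, le_div_iff₀ (by positivity)]
    refine le_trans (le_of_eq ?_) (err_ge k)
    have e : (2 * 5 ^ k / 3 : ℝ) ^ n = (2 / 3) ^ n * (5 ^ k) ^ n := by
      rw [← mul_pow]; congr 1; ring
    rw [e]
    field_simp
  refine tendsto_atTop_mono hlow ?_
  exact (tendsto_pow_atTop_atTop_of_one_lt (by norm_num)).atTop_mul_const (by positivity)

end Pool.Agent.Y472.SA
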